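import Pool.Agent.W533.PP.Stm

/-! Project PP: labels of the children of a plane permutation. -/

set_option autoImplicit false

namespace Pool.Agent.W271.PP

open Pool.Agent.W533.PP Finset
open scoped Classical

theorem act_last {n : ℕ} (τ : Equiv.Perm (Fin (n+1))) (h : Plane τ) :
    Act τ ((τ (Fin.last n)).val + 1) := by
  intro i j k hij hk hcon
  obtain ⟨h1, h2, h3⟩ := hcon
  have hjk : j < k := by
    rw [Fin.lt_def]
    omega
  have hkl : k ≤ Fin.last n := Fin.le_last k
  have hkne : k ≠ Fin.last n := by
    rintro rfl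
    omega
  have hkl' : k < Fin.last n := lt_of_le_of_ne hkl hkne
  have hine : i ≠ Fin.last n := (hij.trans (hjk.trans hkl')).ne
  have hτ : τ i ≠ τ (Fin.last n) := fun e => hine (τ.injective e)
  have hτ' : (τ i).val ≠ (τ (Fin.last n)).val := fun e => hτ (Fin.ext e)
  refine h i j k (Fin.last n) hij hk hkl' ⟨?_, ?_, ?_⟩
  · rw [Fin.lt_def]; exact h1
  · rw [Fin.lt_def]; omega
  · rw [Fin.lt_def]; omega

theorem plab (h : PACT) : PLAB := by
  intro n τ hτ v hv
  have hvn : v.val ≤ n + 1 := by have := v.2; omega
  have hlast : (ins v τ (Fin.last (n+1))) = v := ins_last v τ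
  have hk : kL (ins v τ) = ((aS τ).filter (fun s => v.val ≤ s)).card := by
    unfold kL
    rw [hlast]
    symm
    apply Finset.card_bij (fun s _ => s + 1)
    · intro s hs
      rw [Finset.mem_filter] at hs
      obtain ⟨h1, h2⟩ := hs
      unfold aS at h1
      rw [Finset.mem_filter, Finset.mem_range] at h1
      rw [Finset.mem_filter, Finset.mem_Ico, h]
      refine ⟨by omega, ?_, by omega⟩
      rw [if_neg (by omega), Nat.add_sub_cancel]
      exact h1.2
    · intro a _ b _ hab
      omega
    · intro s hs
      rw [Finset.mem_filter, Finset.mem_Ico, h] at hs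
      obtain ⟨h1, h2, h3⟩ := hs
      rw [if_neg (by omega)] at h2
      refine ⟨s - 1, ?_, by omega⟩
      rw [Finset.mem_filter]
      unfold aS
      rw [Finset.mem_filter, Finset.mem_range]
      exact ⟨⟨by omega, h2⟩, by omega⟩
  refine ⟨fun hvL => ⟨?_, hk⟩, fun hvL => ⟨?_, hk⟩⟩
  · unfold hL
    rw [hlast]
    congr 1
    ext s
    rw [Finset.mem_filter, Finset.mem_filter, Finset.mem_range, h]
    unfold aS
    rw [Finset.mem_filter, Finset.mem_range]
    constructor
    · rintro ⟨h1, h2, h3⟩
      rw [if_pos (by omega)] at h2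
      exact ⟨⟨by omega, h2⟩, by omega⟩
    · rintro ⟨⟨h1, h2⟩, h3⟩
      refine ⟨by omega, ?_, by omega⟩
      rw [if_pos (by omega)]
      exact h2
  · have hset : (Finset.range ((ins v τ (Fin.last (n+1))).val + 1)).filter
        (fun s => Act (ins v τ) s) =
        insert ((τ (Fin.last n)).val + 1)
          ((Finset.range ((τ (Fin.last n)).val + 1)).filter (fun s => Act τ s)) := by
      rw [hlast]
      ext s
      rw [Finset.mem_insert, Finset.mem_filter, Finset.mem_filter, Finset.mem_range,
        Finset.mem_range, h]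
      constructor
      · rintro ⟨h1, h2, h3⟩
        rw [if_pos (by omega)] at h2
        by_cases hs : s = (τ (Fin.last n)).val + 1
        · exact Or.inl hs
        · exact Or.inr ⟨by omega, h2⟩
      · rintro (h1 | ⟨h1, h2⟩)
        · refine ⟨by omega, ?_, by omega⟩
          rw [if_pos (by omega), h1]
          exact act_last τ hτ
        · refine ⟨by omega, ?_, by omega⟩
          rw [if_pos (by omega)]
          exact h2
    unfold hL
    rw [hset, Finset.card_insert_of_notMem]
    intro hmem
    rw [Finset.mem_filter, Finset.mem_range] at hmem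
    omega

end Pool.Agent.W271.PP
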